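import Pool.Agent.Helper10.Lor.Lib

set_option autoImplicit false

/-! # Module ALG: algebra of the action -/

namespace Pool.Agent.Helper13.Lor

open Pool.Agent.Helper10.Lor
open MeasureTheory Topology

variable {n : ℕ}

/-- `-form` of two points of the hyperboloid -/
theorem form_vec {p q : Pt n} (hp : p ∈ UH n) (hq : q ∈ UH n) :
    form (vec p) (vec q) = -(‖p.1 - q.1‖ ^ 2 + p.2 ^ 2 + q.2 ^ 2) / (2 * p.2 * q.2) := by
  have h1 : p.2 ≠ 0 := (show 0 < p.2 from hp).ne'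
  have h2 : q.2 ≠ 0 := (show 0 < q.2 from hq).ne'
  unfold form vec
  simp only [inner_smul_left, inner_smul_right, conj_trivial]
  rw [@norm_sub_sq_real]
  field_simp
  ring

theorem form_self (x : LV n) : form x x = ‖x.2.2‖ ^ 2 - 2 * x.1 * x.2.1 := by
  unfold form
  rw [real_inner_self_eq_norm_sq]
  ring

theorem form_vec_self {p : Pt n} (hp : p ∈ UH n) : form (vec p) (vec p) = -1 := by
  have h1 : p.2 ≠ 0 := (show 0 < p.2 from hp).ne'
  rw [form_vec hp hp]
  simp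
  field_simp
  ring

theorem vec_fst_pos {p : Pt n} (hp : p ∈ UH n) : 0 < (vec p).1 := by
  have h1 : 0 < p.2 := hp
  unfold vec
  positivity

theorem g_fst_pos {g : LV n ≃ₗ[ℝ] LV n} (hg : g ∈ LG n) {p : Pt n} (hp : p ∈ UH n) :
    0 < (g (vec p)).1 :=
  hg.2 _ (by rw [form_vec_self hp]; norm_num) (vec_fst_pos hp)

theorem act_mem {g : LV n ≃ₗ[ℝ] LV n} (hg : g ∈ LG n) {p : Pt n} (hp : p ∈ UH n) :
    act g p ∈ UH n := by
  have := g_fst_pos hg hp
  show 0 < 1 / (g (vec p)).1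
  positivity

theorem vec_pnt {x : LV n} (h1 : form x x = -1) (h2 : 0 < x.1) : vec (pnt x) = x := by
  rw [form_self] at h1
  have hx : x.1 ≠ 0 := h2.ne'
  unfold vec pnt
  refine Prod.ext ?_ (Prod.ext ?_ ?_)
  · simp
  · dsimp only
    rw [norm_smul, mul_pow, Real.norm_eq_abs, sq_abs]
    have : ‖x.2.2‖ ^ 2 = 2 * x.1 * x.2.1 - 1 := by linarith
    rw [this]
    field_simp
    ring
  · dsimp only
    rw [smul_smul]
    have : 1 / (1 / x.1) * (1 / x.1) = 1 := by field_simp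
    rw [this, one_smul]

theorem pnt_vec {p : Pt n} (hp : p ∈ UH n) : pnt (vec p) = p := by
  have h1 : p.2 ≠ 0 := (show 0 < p.2 from hp).ne'
  unfold vec pnt
  refine Prod.ext ?_ ?_
  · dsimp only
    rw [smul_smul]
    have : 1 / (1 / p.2) * (1 / p.2) = 1 := by field_simp
    rw [this, one_smul]
  · simp

theorem vec_act {g : LV n ≃ₗ[ℝ] LV n} (hg : g ∈ LG n) {p : Pt n} (hp : p ∈ UH n) :
    vec (act g p) = g (vec p) := by
  unfold act
  apply vec_pnt _ (g_fst_pos hg hp)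
  rw [hg.1, form_vec_self hp]

theorem act_mul (g : LV n ≃ₗ[ℝ] LV n) {h : LV n ≃ₗ[ℝ] LV n} (hh : h ∈ LG n) {p : Pt n}
    (hp : p ∈ UH n) : act (g * h) p = act g (act h p) := by
  show pnt ((g * h) (vec p)) = pnt (g (vec (act h p)))
  rw [vec_act hh hp]
  rfl

theorem act_one {p : Pt n} (hp : p ∈ UH n) : act (1 : LV n ≃ₗ[ℝ] LV n) p = p := by
  show pnt (vec p) = p
  exact pnt_vec hp

theorem T_apply (v : E n) (x : LV n) :
    T v x = (x.1, x.2.1 + inner ℝ x.2.2 v + x.1 * (‖v‖ ^ 2 / 2), x.2.2 + x.1 • v) := rfl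

theorem act_T (v : E n) {p : Pt n} (hp : p ∈ UH n) : act (T v) p = (p.1 + v, p.2) := by
  have h1 : p.2 ≠ 0 := (show 0 < p.2 from hp).ne'
  unfold act
  rw [T_apply]
  unfold pnt vec
  refine Prod.ext ?_ ?_
  · dsimp only
    rw [smul_add, smul_smul, smul_smul]
    have : 1 / (1 / p.2) * (1 / p.2) = 1 := by field_simp
    rw [this, one_smul, one_smul]
  · simp

theorem T_mem_LG (v : E n) : T v ∈ LG n := by
  refine ⟨fun x y => ?_, fun x _ hx => ?_⟩
  · rw [T_apply, T_apply]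
    unfold form
    dsimp only
    simp only [inner_add_left, inner_add_right, inner_smul_left, inner_smul_right, conj_trivial,
      real_inner_self_eq_norm_sq]
    rw [real_inner_comm y.2.2 v]
    ring
  · rw [T_apply]
    exact hx

theorem T_add (v w : E n) : T (v + w) = T v * T w := by
  refine LinearEquiv.ext fun x => Prod.ext ?_ (Prod.ext ?_ ?_)
  · rfl
  · show (T (v + w) x).2.1 = (T v (T w x)).2.1
    rw [T_apply, T_apply v, T_apply w]
    dsimp only
    rw [inner_add_right, inner_add_left, inner_smul_left, conj_trivial, @norm_add_sq_real,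
      real_inner_comm v w]
    ring
  · show (T (v + w) x).2.2 = (T v (T w x)).2.2
    rw [T_apply, T_apply v, T_apply w]
    dsimp only
    rw [smul_add]
    abel

theorem T_zero : T (0 : E n) = 1 := by
  refine LinearEquiv.ext fun x => Prod.ext ?_ (Prod.ext ?_ ?_)
  · rfl
  · show (T (0 : E n) x).2.1 = x.2.1
    rw [T_apply]
    simp
  · show (T (0 : E n) x).2.2 = x.2.2
    rw [T_apply]
    simp

theorem inner_int {L : AddSubgroup (E n)} {b : Fin n → E n} (hL : EvenLat L b) {x y : E n}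
    (hx : x ∈ L) (hy : y ∈ L) : ∃ m : ℤ, inner ℝ x y = m := by
  obtain ⟨a, ha⟩ := hL.even x hx
  obtain ⟨c, hc⟩ := hL.even y hy
  obtain ⟨d, hd⟩ := hL.even (x + y) (L.add_mem hx hy)
  rw [@norm_add_sq_real, ha, hc] at hd
  refine ⟨d - a - c, ?_⟩
  push_cast
  linarith

theorem T_lat {L : AddSubgroup (E n)} {b : Fin n → E n} (hL : EvenLat L b) {v : E n}
    (hv : v ∈ L) {x : LV n} (hx : x ∈ lat L) : T v x ∈ lat L := by
  obtain ⟨⟨a, ha⟩, ⟨c, hc⟩, hz⟩ := hx
  obtain ⟨d, hd⟩ := inner_int hL hz hv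
  obtain ⟨e, he⟩ := hL.even v hv
  rw [T_apply]
  refine ⟨⟨a, ha⟩, ⟨c + d + a * e, ?_⟩, ?_⟩
  · dsimp only
    rw [hc, hd, ha, he]
    push_cast
    ring
  · dsimp only
    rw [ha]
    have : ((a : ℤ) : ℝ) • v = a • v := by rw [Int.cast_smul_eq_zsmul]
    rw [this]
    exact L.add_mem hz (L.zsmul_mem hv a)

theorem T_mem_OL {L : AddSubgroup (E n)} {b : Fin n → E n} (hL : EvenLat L b) {v : E n}
    (hv : v ∈ L) : T v ∈ OL L := by
  refine ⟨T_mem_LG v, fun x => ⟨fun h => ?_, fun h => T_lat hL hv h⟩⟩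
  have h1 := T_lat hL (L.neg_mem hv) h
  have h2 : T (-v) (T v x) = (T (-v) * T v) x := rfl
  rw [h2, ← T_add, neg_add_cancel, T_zero] at h1
  exact h1

/-- the action multiplies Euclidean distances by the square root of the product of the height
ratios -/
theorem dist_act {g : LV n ≃ₗ[ℝ] LV n} (hg : g ∈ LG n) {p q : Pt n} (hp : p ∈ UH n)
    (hq : q ∈ UH n) :
    (‖(act g p).1 - (act g q).1‖ ^ 2 + ((act g p).2 - (act g q).2) ^ 2) * (p.2 * q.2)
      = (‖p.1 - q.1‖ ^ 2 + (p.2 - q.2) ^ 2) * ((act g p).2 * (act g q).2) := by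
  have h1 : (0 : ℝ) < p.2 := hp
  have h2 : (0 : ℝ) < q.2 := hq
  have h3 : (0 : ℝ) < (act g p).2 := act_mem hg hp
  have h4 : (0 : ℝ) < (act g q).2 := act_mem hg hq
  have e1 := form_vec hp hq
  have e2 := form_vec (act_mem hg hp) (act_mem hg hq)
  rw [vec_act hg hp, vec_act hg hq, hg.1, e1] at e2
  rw [div_eq_div_iff (by positivity) (by positivity)] at e2
  nlinarith

/-- heights and cusp vectors -/
theorem uval_act {g : LV n ≃ₗ[ℝ] LV n} (hg : g ∈ LG n) (w : LV n) {p : Pt n} (hp : p ∈ UH n) :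
    uval w (act g p) = uval (g⁻¹ w) p := by
  unfold uval
  rw [vec_act hg hp, ← hg.1 (vec p) (g⁻¹ w)]
  have : g (g⁻¹ w) = w := g.apply_symm_apply w
  rw [this]

theorem form_w0 (x : LV n) : form x w0 = -x.1 := by
  unfold form w0
  simp

theorem uval_w0 {p : Pt n} (_hp : p ∈ UH n) : uval w0 p = 1 / p.2 := by
  unfold uval
  rw [form_w0]
  simp [vec]

/-- reverse Cauchy-Schwarz inequality -/
theorem rcs (v : LV n) {p : Pt n} (hp : p ∈ UH n) : -form v v ≤ (form (vec p) v) ^ 2 := by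
  have h1 : (0 : ℝ) < p.2 := hp
  obtain ⟨a, c, w⟩ := v
  have e1 : form (vec p) (a, c, w) =
      -(1 / p.2) * ((c - inner ℝ w p.1 + a * ‖p.1‖ ^ 2 / 2) + a * p.2 ^ 2 / 2) := by
    unfold form vec
    dsimp only
    rw [inner_smul_left, conj_trivial, real_inner_comm w p.1]
    field_simp
    ring
  have e2 : form ((a, c, w) : LV n) (a, c, w) = ‖w - a • p.1‖ ^ 2 -
      2 * a * (c - inner ℝ w p.1 + a * ‖p.1‖ ^ 2 / 2) := by
    rw [form_self, @norm_sub_sq_real, inner_smul_right, norm_smul, mul_pow, Real.norm_eq_abs,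
      sq_abs]
    dsimp only
    ring
  set B := c - inner ℝ w p.1 + a * ‖p.1‖ ^ 2 / 2 with hB
  rw [e1, e2]
  have h2 : 0 ≤ (B / p.2 - a * p.2 / 2) ^ 2 := sq_nonneg _
  have h3 : 0 ≤ ‖w - a • p.1‖ ^ 2 := sq_nonneg _
  have e3 : (-(1 / p.2) * (B + a * p.2 ^ 2 / 2)) ^ 2 = (B / p.2 - a * p.2 / 2) ^ 2 + 2 * a * B := by
    field_simp
    ring
  rw [e3]
  linarith

/-- the value `uval` of a nonzero isotropic lattice vector of the future cone is positive -/
theorem uval_pos {L : AddSubgroup (E n)} {w : LV n} (hw : w ∈ Orb L) {p : Pt n}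
    (hp : p ∈ UH n) : 0 < uval w p := by
  obtain ⟨γ, hγ, rfl⟩ := hw
  have h1 : uval (γ w0) p = uval w0 (act γ⁻¹ p) := by
    rw [uval_act ((LG n).inv_mem hγ.1) _ hp, inv_inv]
  rw [h1, uval_w0 (act_mem ((LG n).inv_mem hγ.1) hp)]
  have : (0 : ℝ) < (act γ⁻¹ p).2 := act_mem ((LG n).inv_mem hγ.1) hp
  positivity

end Pool.Agent.Helper13.Lor
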