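import Pool.Agent.Helper13.Lor.Green

set_option autoImplicit false

namespace Pool.Agent.Helper13.Lor

open Pool.Agent.Helper10.Lor
open MeasureTheory Topology

variable {n : ℕ}

/-- complex version of a real function -/
noncomputable def cc (η : Pt n → ℝ) (p : Pt n) : ℂ := (η p : ℂ)

/-- the first order operator `η ↦ ∑ conj u_i <grad u_i, grad η>` -/
noncomputable def Gop {ι : Type} [Fintype ι] (u : ι → Pt n → ℂ) (v : Pt n → ℂ) (p : Pt n) : ℂ :=
  ∑ i, (starRingEnd ℂ) (u i p) * gdot (u i) v p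

theorem contDiffOn_cc {m : WithTop ℕ∞} {η : Pt n → ℝ} {s : Set (Pt n)} (h : ContDiffOn ℝ m η s) :
    ContDiffOn ℝ m (cc η) s :=
  Complex.ofRealCLM.contDiff.comp_contDiffOn h

theorem contDiff_cc {m : WithTop ℕ∞} {η : Pt n → ℝ} (h : ContDiff ℝ m η) : ContDiff ℝ m (cc η) :=
  Complex.ofRealCLM.contDiff.comp h

theorem contDiffOn_conj {m : WithTop ℕ∞} {f : Pt n → ℂ} {s : Set (Pt n)} (h : ContDiffOn ℝ m f s) :
    ContDiffOn ℝ m (fun p => (starRingEnd ℂ) (f p)) s :=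
  Complex.conjCLE.contDiff.comp_contDiffOn h

theorem pd_mul (e : Pt n) {f h : Pt n → ℂ} {p : Pt n} (hf : DifferentiableAt ℝ f p)
    (hh : DifferentiableAt ℝ h p) :
    pd e (fun q => f q * h q) p = f p * pd e h p + h p * pd e f p := by
  unfold pd
  have h1 : fderiv ℝ (fun q => f q * h q) p = _ := (hf.hasFDerivAt.mul hh.hasFDerivAt).fderiv
  rw [h1]
  simp [smul_eq_mul]

theorem pd_conj (e : Pt n) {f : Pt n → ℂ} {p : Pt n} (hf : DifferentiableAt ℝ f p) :
    pd e (fun q => (starRingEnd ℂ) (f q)) p = (starRingEnd ℂ) (pd e f p) := by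
  unfold pd
  have h := (Complex.conjCLE.toContinuousLinearMap.hasFDerivAt (x := f p)).comp p hf.hasFDerivAt
  have h2 : fderiv ℝ (fun q => (starRingEnd ℂ) (f q)) p = _ := h.fderiv
  rw [h2]
  rfl

theorem gdot_mul {u f h : Pt n → ℂ} {p : Pt n} (hf : DifferentiableAt ℝ f p)
    (hh : DifferentiableAt ℝ h p) :
    gdot u (fun q => f q * h q) p = f p * gdot u h p + h p * gdot u f p := by
  unfold gdot
  simp only [pd_mul _ hf hh]
  have h1 : ∑ k : Fin n, pd (dir k) u p * (f p * pd (dir k) h p + h p * pd (dir k) f p) =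
      f p * (∑ k : Fin n, pd (dir k) u p * pd (dir k) h p) +
        h p * ∑ k : Fin n, pd (dir k) u p * pd (dir k) f p := by
    rw [Finset.mul_sum, Finset.mul_sum, ← Finset.sum_add_distrib]
    exact Finset.sum_congr rfl fun k _ => by ring
  rw [h1]
  ring

theorem gdot_conj_self {u : Pt n → ℂ} {p : Pt n} (hu : DifferentiableAt ℝ u p) :
    gdot u (fun q => (starRingEnd ℂ) (u q)) p = (gsq u p : ℂ) := by
  unfold gdot gsq
  simp only [pd_conj _ hu, Complex.mul_conj, Complex.normSq_eq_norm_sq]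
  push_cast
  rfl

theorem smooth1 {L : AddSubgroup (E n)} {ι : Type} {u : ι → Pt n → ℂ} (hS : Sys L ι u) (i : ι) :
    ContDiffOn ℝ 1 (u i) (UH n) := (hS.smooth i).of_le (by norm_num)

theorem continuousOn_Gop {ι : Type} [Fintype ι] {u : ι → Pt n → ℂ}
    (hu : ∀ i, ContDiffOn ℝ 1 (u i) (UH n)) {v : Pt n → ℂ} (hv : ContDiffOn ℝ 1 v (UH n)) :
    ContinuousOn (Gop u v) (UH n) := by
  unfold Gop
  refine continuousOn_finsetSum _ fun i _ => ?_
  exact (contDiffOn_conj (hu i)).continuousOn.mul (continuousOn_gdot (hu i) hv)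

theorem Gop_congr {ι : Type} [Fintype ι] (u : ι → Pt n → ℂ) {v w : Pt n → ℂ} {p : Pt n}
    (h : v =ᶠ[𝓝 p] w) : Gop u v p = Gop u w p := by
  unfold Gop
  refine Finset.sum_congr rfl fun i _ => ?_
  rw [gdot_congr (Filter.EventuallyEq.refl _ _) h]

theorem Gop_mul {ι : Type} [Fintype ι] (u : ι → Pt n → ℂ) {f h : Pt n → ℂ} {p : Pt n}
    (hf : DifferentiableAt ℝ f p) (hh : DifferentiableAt ℝ h p) :
    Gop u (fun q => f q * h q) p = f p * Gop u h p + h p * Gop u f p := by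
  unfold Gop
  rw [Finset.mul_sum, Finset.mul_sum, ← Finset.sum_add_distrib]
  refine Finset.sum_congr rfl fun i _ => ?_
  rw [gdot_mul hf hh]
  ring

theorem Gop_off {ι : Type} [Fintype ι] (u : ι → Pt n → ℂ) {v : Pt n → ℂ} {p : Pt n}
    (h : p ∉ tsupport v) : Gop u v p = 0 := by
  unfold Gop
  refine Finset.sum_eq_zero fun i _ => ?_
  rw [gdot_zero_off h, mul_zero]

/-- invariance of the operator -/
theorem Gop_act (hDp : Dp n) {L : AddSubgroup (E n)} {ι : Type} [Fintype ι] {u : ι → Pt n → ℂ} (hS : Sys L ι u)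
    {γ : LV n ≃ₗ[ℝ] LV n} (hγ : γ ∈ OL L) {v : Pt n → ℂ} {p : Pt n} (hp : p ∈ (UH n))
    (hv : DifferentiableAt ℝ v (act γ p)) :
    Gop u v (act γ p) = Gop u (fun q => v (act γ q)) p := by
  obtain ⟨σ, hσ⟩ := hS.perm γ hγ
  unfold Gop
  rw [← Equiv.sum_comp σ (fun i => (starRingEnd ℂ) (u i p) * gdot (u i) (fun q => v (act γ q)) p)]
  refine Finset.sum_congr rfl fun i _ => ?_
  rw [← hDp.gd γ hγ.1 p hp _ _ (differentiableAt_of (smooth1 hS i) (act_mem hγ.1 hp)) hv,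
    hσ i p hp]
  congr 1
  refine gdot_congr ?_ (Filter.EventuallyEq.refl _ _)
  filter_upwards [isOpen_UH.mem_nhds hp] with q hq
  exact hσ i q hq

/-- interface to module DISC -/
def LF (L : AddSubgroup (E n)) : Prop := ∀ p ∈ UH n, ∀ C a : ℝ, 0 < a →
  ∃ U ∈ 𝓝 p, U ⊆ UH n ∧ {γ : OL L | ∃ q ∈ U, ‖(act γ q).1‖ ≤ C ∧ a ≤ (act γ q).2}.Finite

/-- finiteness of the set of `γ` moving a compact set into the support of `κ` -/
theorem finite_of_compact {L : AddSubgroup (E n)} (hLF : LF L) {K : Set (Pt n)} (hK : IsCompact K)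
    (hKU : K ⊆ UH n) (C a : ℝ) (ha : 0 < a) :
    {γ : OL L | ∃ q ∈ K, ‖(act γ q).1‖ ≤ C ∧ a ≤ (act γ q).2}.Finite := by
  refine hK.induction_on
    (p := fun s => {γ : OL L | ∃ q ∈ s, ‖(act γ q).1‖ ≤ C ∧ a ≤ (act γ q).2}.Finite) ?_ ?_ ?_ ?_
  · simp
  · intro s t hst ht
    exact ht.subset fun γ ⟨q, hq, h⟩ => ⟨q, hst hq, h⟩
  · intro s t hs ht
    refine (hs.union ht).subset ?_
    rintro γ ⟨q, hq | hq, h⟩
    · exact Or.inl ⟨q, hq, h⟩
    · exact Or.inr ⟨q, hq, h⟩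
  · intro p hp
    obtain ⟨U, hU, -, hfin⟩ := hLF p (hKU hp) C a ha
    exact ⟨U, mem_nhdsWithin_of_mem_nhds hU, hfin⟩

/-- a closed box in the upper half-space -/
def box (n : ℕ) (C a ρ : ℝ) : Set (Pt n) := {p | ‖p.1‖ ≤ C ∧ a ≤ p.2 ∧ p.2 ≤ ρ}

theorem box_eq (C a ρ : ℝ) : box n C a ρ = Metric.closedBall (0 : (E n)) C ×ˢ Set.Icc a ρ := by
  ext p
  simp [box, Set.mem_prod]

theorem isCompact_box (C a ρ : ℝ) : IsCompact (box n C a ρ) := by
  rw [box_eq]
  exact (isCompact_closedBall _ _).prod isCompact_Icc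

theorem box_subset {C a ρ : ℝ} (ha : 0 < a) : box n C a ρ ⊆ (UH n) := fun _ hp =>
  lt_of_lt_of_le ha hp.2.1

theorem box_nhds {C a ρ : ℝ} (ha : 0 < a) {p : Pt n} (hp : p ∈ box n C a ρ) :
    box n (C + 1) (a / 2) (ρ + 1) ∈ 𝓝 p := by
  have h1 : {q : Pt n | ‖q.1‖ < C + 1} ∩ ({q : Pt n | a / 2 < q.2} ∩ {q : Pt n | q.2 < ρ + 1}) ∈ 𝓝 p := by
    refine IsOpen.mem_nhds ?_ ⟨?_, ?_, ?_⟩
    · exact (isOpen_lt (by fun_prop) continuous_const).inter
        ((isOpen_lt continuous_const continuous_snd).inter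
          (isOpen_lt continuous_snd continuous_const))
    · have := hp.1
      change ‖p.1‖ < C + 1
      linarith
    · have := hp.2.1
      change a / 2 < p.2
      linarith
    · have := hp.2.2
      change p.2 < ρ + 1
      linarith
  filter_upwards [h1] with q hq
  exact ⟨le_of_lt hq.1, le_of_lt hq.2.1, le_of_lt hq.2.2⟩

end Pool.Agent.Helper13.Lor
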