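import Pool.Agent.Helper13.Lor.ALG

set_option autoImplicit false

namespace Pool.Agent.Helper13.Lor

open Pool.Agent.Helper10.Lor
open MeasureTheory Topology

variable {n : ℕ}

/-- interface to module DIFF -/
structure Dp (n : ℕ) : Prop where
  cd : ∀ g ∈ LG n, ContDiffOn ℝ 2 (act g) (UH n)
  gd : ∀ g ∈ LG n, ∀ p ∈ UH n, ∀ f h : Pt n → ℂ, DifferentiableAt ℝ f (act g p) →
    DifferentiableAt ℝ h (act g p) →
      gdot (fun q => f (act g q)) (fun q => h (act g q)) p = gdot f h (act g p)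
  mp : ∀ g ∈ LG n, MeasurePreserving (act g) (hyp n) (hyp n)

theorem Dp.cd1 (hDp : Dp n) {g : LV n ≃ₗ[ℝ] LV n} (hg : g ∈ LG n) :
    ContDiffOn ℝ 1 (act g) (UH n) := (hDp.cd g hg).of_le (by norm_num)

theorem isOpen_UH : IsOpen (UH n) := isOpen_lt continuous_const continuous_snd

theorem act_inv_act {g : LV n ≃ₗ[ℝ] LV n} (hg : g ∈ LG n) {p : Pt n} (hp : p ∈ UH n) :
    act g⁻¹ (act g p) = p := by
  rw [← act_mul g⁻¹ hg hp, inv_mul_cancel, act_one hp]

theorem act_act_inv {g : LV n ≃ₗ[ℝ] LV n} (hg : g ∈ LG n) {p : Pt n} (hp : p ∈ UH n) :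
    act g (act g⁻¹ p) = p := by
  rw [← act_mul g ((LG n).inv_mem hg) hp, mul_inv_cancel, act_one hp]

/-! ## functions supported in compact subsets of the upper half-space -/

theorem continuous_of_UH {E : Type*} [TopologicalSpace E] [Zero E] {f : Pt n → E} {K : Set (Pt n)}
    (hK : IsClosed K) (hKU : K ⊆ (UH n)) (hf : ContinuousOn f (UH n)) (h0 : ∀ p, p ∉ K → f p = 0) :
    Continuous f := by
  rw [continuous_iff_continuousAt]
  intro p
  by_cases hp : p ∈ (UH n)
  · exact hf.continuousAt (isOpen_UH.mem_nhds hp)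
  · have hpK : p ∈ Kᶜ := fun h => hp (hKU h)
    have hev : f =ᶠ[𝓝 p] fun _ => 0 := by
      filter_upwards [hK.isOpen_compl.mem_nhds hpK] with q hq
      exact h0 q hq
    exact continuousAt_const.congr hev.symm

theorem contDiff_of_UH {E : Type*} [NormedAddCommGroup E] [NormedSpace ℝ E] {m : WithTop ℕ∞}
    {f : Pt n → E} {K : Set (Pt n)}
    (hK : IsClosed K) (hKU : K ⊆ (UH n)) (hf : ContDiffOn ℝ m f (UH n)) (h0 : ∀ p, p ∉ K → f p = 0) :
    ContDiff ℝ m f := by
  rw [contDiff_iff_contDiffAt]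
  intro p
  by_cases hp : p ∈ (UH n)
  · exact hf.contDiffAt (isOpen_UH.mem_nhds hp)
  · have hpK : p ∈ Kᶜ := fun h => hp (hKU h)
    have hev : f =ᶠ[𝓝 p] fun _ => 0 := by
      filter_upwards [hK.isOpen_compl.mem_nhds hpK] with q hq
      exact h0 q hq
    exact contDiffAt_const.congr_of_eventuallyEq hev

theorem isHaar (n : ℕ) : (volume : Measure (Pt n)).IsAddHaarMeasure :=
  Measure.prod.instIsAddHaarMeasure _ _

theorem integrable_vol {E : Type*} [NormedAddCommGroup E] {f : Pt n → E} {K : Set (Pt n)}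
    (hK : IsCompact K) (hf : Continuous f) (h0 : ∀ p, p ∉ K → f p = 0) :
    Integrable f (volume : Measure (Pt n)) := by
  have := isHaar n
  exact hf.integrable_of_hasCompactSupport (HasCompactSupport.intro hK h0)

theorem measurable_weight' : Measurable fun p : Pt n => ENNReal.ofReal ((p.2 ^ (n + 1))⁻¹) :=
  ((measurable_snd.pow_const (n + 1)).inv).ennreal_ofReal

theorem integral_hyp {E : Type*} [NormedAddCommGroup E] [NormedSpace ℝ E] (f : Pt n → E) :
    ∫ p, f p ∂(hyp n) = ∫ p in (UH n), ((p.2 ^ (n + 1))⁻¹ : ℝ) • f p := by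
  unfold hyp
  rw [integral_withDensity_eq_integral_toReal_smul measurable_weight'
    (Filter.Eventually.of_forall fun _ => ENNReal.ofReal_lt_top)]
  refine setIntegral_congr_fun isOpen_UH.measurableSet fun p hp => ?_
  have hp' : (0 : ℝ) < p.2 := hp
  rw [ENNReal.toReal_ofReal (by positivity)]

theorem integrable_hyp {E : Type*} [NormedAddCommGroup E] [NormedSpace ℝ E] {f : Pt n → E}
    {K : Set (Pt n)} (hK : IsCompact K) (hKU : K ⊆ (UH n)) (hf : ContinuousOn f (UH n))
    (h0 : ∀ p, p ∉ K → f p = 0) : Integrable f (hyp n) := by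
  unfold hyp
  rw [integrable_withDensity_iff_integrable_smul' measurable_weight'
    (Filter.Eventually.of_forall fun _ => ENNReal.ofReal_lt_top)]
  have hc : Continuous fun p : Pt n => ((p.2 ^ (n + 1))⁻¹ : ℝ) • f p := by
    refine continuous_of_UH hK.isClosed hKU ?_ fun p hp => by rw [h0 p hp, smul_zero]
    refine ContinuousOn.smul ?_ hf
    refine ContinuousOn.inv₀ (by fun_prop) fun p hp => ?_
    have hp' : (0 : ℝ) < p.2 := hp
    positivity
  have hi : Integrable (fun p : Pt n => ((p.2 ^ (n + 1))⁻¹ : ℝ) • f p) (volume.restrict (UH n)) :=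
    (integrable_vol hK hc fun p hp => by rw [h0 p hp, smul_zero]).restrict
  refine (integrable_congr ?_).mpr hi
  rw [Filter.EventuallyEq, ae_restrict_iff' isOpen_UH.measurableSet]
  refine Filter.Eventually.of_forall fun p hp => ?_
  have hp' : (0 : ℝ) < p.2 := hp
  rw [ENNReal.toReal_ofReal (by positivity)]

/-! ## continuity of the partial derivatives -/

theorem continuousOn_pd (e : Pt n) {f : Pt n → ℂ} (hf : ContDiffOn ℝ 1 f (UH n)) :
    ContinuousOn (pd e f) (UH n) := by
  have h := hf.continuousOn_fderiv_of_isOpen isOpen_UH le_rfl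
  exact h.clm_apply continuousOn_const

theorem contDiffOn_pd (e : Pt n) {f : Pt n → ℂ} (hf : ContDiffOn ℝ 2 f (UH n)) :
    ContDiffOn ℝ 1 (pd e f) (UH n) := by
  have h : ContDiffOn ℝ 1 (fderiv ℝ f) (UH n) := by
    refine hf.fderiv_of_isOpen isOpen_UH ?_
    norm_num
  exact h.clm_apply contDiffOn_const

theorem differentiableAt_of {f : Pt n → ℂ} (hf : ContDiffOn ℝ 1 f (UH n)) {p : Pt n} (hp : p ∈ (UH n)) :
    DifferentiableAt ℝ f p :=
  (hf.contDiffAt (isOpen_UH.mem_nhds hp)).differentiableAt one_ne_zero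

/-! ## Green's formula -/

/-- integration by parts against a test function -/
theorem ibp {w φ : Pt n → ℂ} (hw : ContDiffOn ℝ 1 w (UH n)) (hφ : ContDiff ℝ 1 φ)
    (hc : HasCompactSupport φ) (hs : tsupport φ ⊆ (UH n)) (e : Pt n) :
    ∫ p in (UH n), w p * pd e φ p = - ∫ p in (UH n), pd e w p * φ p := by
  have := isHaar n
  have h0 : ∀ p, p ∉ tsupport φ → φ p = 0 := fun p hp => image_eq_zero_of_notMem_tsupport hp
  have h1 : ∀ p, p ∉ tsupport φ → pd e φ p = 0 := by
    intro p hp
    unfold pd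
    have : fderiv ℝ φ p = 0 := by
      by_contra hne
      exact hp (tsupport_fderiv_subset ℝ (subset_tsupport _ hne))
    rw [this]; rfl
  have hφ' : Continuous (pd e φ) := by
    have := hφ.continuous_fderiv one_ne_zero
    exact this.clm_apply continuous_const
  have c1 : Continuous fun p => w p * pd e φ p :=
    continuous_of_UH hc.isClosed hs (hw.continuousOn.mul hφ'.continuousOn)
      fun p hp => by rw [h1 p hp, mul_zero]
  have c2 : Continuous fun p => pd e w p * φ p :=
    continuous_of_UH hc.isClosed hs ((continuousOn_pd e hw).mul hφ.continuous.continuousOn)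
      fun p hp => by rw [h0 p hp, mul_zero]
  have c3 : Continuous fun p => w p * φ p :=
    continuous_of_UH hc.isClosed hs (hw.continuousOn.mul hφ.continuous.continuousOn)
      fun p hp => by rw [h0 p hp, mul_zero]
  have key := integral_bilinear_hasLineDerivAt_right_eq_neg_left_of_integrable
    (μ := (volume : Measure (Pt n))) (f := w) (f' := pd e w) (g := φ) (g' := pd e φ) (v := e)
    (B := ContinuousLinearMap.mul ℝ ℂ)
    (by simpa using integrable_vol hc c2 fun p hp => by rw [h0 p hp, mul_zero])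
    (by simpa using integrable_vol hc c1 fun p hp => by rw [h1 p hp, mul_zero])
    (by simpa using integrable_vol hc c3 fun p hp => by rw [h0 p hp, mul_zero])
    (fun p hp => (differentiableAt_of hw (hs hp)).hasFDerivAt.hasLineDerivAt e)
    (fun p _ => (hφ.differentiable one_ne_zero p).hasFDerivAt.hasLineDerivAt e)
  simp only [ContinuousLinearMap.mul_apply'] at key
  have e1' : ∫ p in (UH n), w p * pd e φ p = ∫ p, w p * pd e φ p := by
    refine setIntegral_eq_integral_of_forall_compl_eq_zero fun p hp => ?_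
    rw [h1 p fun h => hp (hs h), mul_zero]
  have e2' : ∫ p in (UH n), pd e w p * φ p = ∫ p, pd e w p * φ p := by
    refine setIntegral_eq_integral_of_forall_compl_eq_zero fun p hp => ?_
    rw [h0 p fun h => hp (hs h), mul_zero]
  rw [e1', e2']
  exact key


theorem pd_zero_off (e : Pt n) {φ : Pt n → ℂ} {p : Pt n} (hp : p ∉ tsupport φ) : pd e φ p = 0 := by
  unfold pd
  have : fderiv ℝ φ p = 0 := by
    by_contra hne
    exact hp (tsupport_fderiv_subset ℝ (subset_tsupport _ hne))
  rw [this]; rfl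

/-- the Euclidean gradient of `u` times `r² r⁻ⁿ⁻¹` -/
noncomputable def wv (e : Pt n) (u : Pt n → ℂ) (p : Pt n) : ℂ :=
  (p.2 ^ 2 * (p.2 ^ (n + 1))⁻¹ : ℝ) • pd e u p

theorem contDiffOn_inv_height :
    ContDiffOn ℝ 1 (fun p : Pt n => p.2 ^ 2 * (p.2 ^ (n + 1))⁻¹) (UH n) :=
  (contDiff_snd.pow 2).contDiffOn.mul ((contDiff_snd.pow (n + 1)).contDiffOn.inv fun p hp => by
    have hp' : (0 : ℝ) < p.2 := hp
    positivity)

theorem contDiffOn_wv (e : Pt n) {u : Pt n → ℂ} (hu : ContDiffOn ℝ 2 u (UH n)) :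
    ContDiffOn ℝ 1 (wv e u) (UH n) :=
  contDiffOn_inv_height.smul (contDiffOn_pd e hu)

theorem pd_wv (e : Pt n) {u : Pt n → ℂ} (hu : ContDiffOn ℝ 2 u (UH n)) {p : Pt n} (hp : p ∈ UH n) :
    pd e (wv e u) p = (p.2 ^ 2 * (p.2 ^ (n + 1))⁻¹ : ℝ) • pd e (pd e u) p
      - (((n : ℝ) - 1) * e.2 * (p.2 * (p.2 ^ (n + 1))⁻¹) : ℝ) • pd e u p := by
  have hp' : (0 : ℝ) < p.2 := hp
  have h0 : HasDerivAt (fun t : ℝ => t ^ 2 * (t ^ (n + 1))⁻¹)
      (-(((n : ℝ) - 1) * (p.2 * (p.2 ^ (n + 1))⁻¹))) p.2 := by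
    have h := (hasDerivAt_pow 2 p.2).mul ((hasDerivAt_pow (n + 1) p.2).inv (by positivity))
    refine h.congr_deriv ?_
    have e1 : p.2 ^ (n + 1) = p.2 ^ n * p.2 := pow_succ _ _
    have e2 : (p.2 ^ n : ℝ) ≠ 0 := by positivity
    simp only [Nat.add_sub_cancel, Pi.inv_apply]
    rw [e1]
    field_simp
    push_cast
    ring
  have h1 : HasFDerivAt (fun q : Pt n => q.2 ^ 2 * (q.2 ^ (n + 1))⁻¹)
      ((-(((n : ℝ) - 1) * (p.2 * (p.2 ^ (n + 1))⁻¹)) : ℝ) •
        ContinuousLinearMap.snd ℝ (E n) ℝ) p := by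
    have := h0.comp_hasFDerivAt p
      (hasFDerivAt_snd (𝕜 := ℝ) (p := p) : HasFDerivAt (fun q : Pt n => q.2) _ p)
    exact this
  have h2 := (differentiableAt_of (contDiffOn_pd e hu) hp).hasFDerivAt
  have h3 := h1.smul h2
  have h4 : fderiv ℝ (wv e u) p = _ := h3.fderiv
  unfold pd at h4 ⊢
  rw [h4]
  simp only [add_apply, smul_apply,
    ContinuousLinearMap.smulRight_apply, ContinuousLinearMap.coe_snd', smul_eq_mul]
  have key : ∀ (A B : ℂ) (c c' : ℝ), c = -c' → A + c • B = A - c' • B := by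
    intro A B c c' h
    rw [h, neg_smul, sub_eq_add_neg]
  exact key _ _ _ _ (by ring)

theorem integral_add3 {f g h : Pt n → ℂ} {μ : Measure (Pt n)} (hf : Integrable f μ)
    (hg : Integrable g μ) (hh : Integrable h μ) :
    (∫ p, f p ∂μ) + (∫ p, g p ∂μ) + (∫ p, h p ∂μ) = ∫ p, (f p + g p + h p) ∂μ := by
  have e1 : ∫ p, (f p + g p) ∂μ = (∫ p, f p ∂μ) + (∫ p, g p ∂μ) := integral_add hf hg
  have e2 : ∫ p, ((f p + g p) + h p) ∂μ = (∫ p, (f p + g p) ∂μ) + (∫ p, h p ∂μ) :=
    integral_add (hf.add hg) hh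
  rw [e2, e1]

theorem dir_snd (k : Fin n) : (dir k).2 = 0 := rfl

theorem er_snd : (er (n := n)).2 = 1 := rfl

theorem green {u : Pt n → ℂ} (hu : ContDiffOn ℝ 2 u (UH n)) (lam : ℂ)
    (heig : ∀ p ∈ UH n, lap u p = -lam * u p) : WeakEig lam u := by
  intro φ hφ hc hs
  have h0 : ∀ p, p ∉ tsupport φ → φ p = 0 := fun p hp => image_eq_zero_of_notMem_tsupport hp
  have hu1 : ContDiffOn ℝ 1 u (UH n) := hu.of_le (by norm_num)
  have hk := fun e => ibp (contDiffOn_wv e hu) hφ hc hs e
  have hφ' : ∀ e, Continuous (pd e φ) := by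
    intro e
    have := hφ.continuous_fderiv one_ne_zero
    exact this.clm_apply continuous_const
  have hi : ∀ e, Integrable (fun p => wv e u p * pd e φ p) (volume.restrict (UH n)) := by
    intro e
    have z : ∀ p, p ∉ tsupport φ → wv e u p * pd e φ p = 0 := fun p hp => by
      rw [pd_zero_off e hp, mul_zero]
    have c : Continuous fun p => wv e u p * pd e φ p := continuous_of_UH hc.isClosed hs
      ((contDiffOn_wv e hu).continuousOn.mul (hφ' e).continuousOn) z
    exact (integrable_vol hc c z).restrict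
  have hj : ∀ e, Integrable (fun p => pd e (wv e u) p * φ p) (volume.restrict (UH n)) := by
    intro e
    have z : ∀ p, p ∉ tsupport φ → pd e (wv e u) p * φ p = 0 := fun p hp => by
      rw [h0 p hp, mul_zero]
    have c : Continuous fun p => pd e (wv e u) p * φ p := continuous_of_UH hc.isClosed hs
      ((continuousOn_pd e (contDiffOn_wv e hu)).mul hφ.continuous.continuousOn) z
    exact (integrable_vol hc c z).restrict
  rw [integral_hyp, integral_hyp, ← integral_const_mul]
  have hL : ∫ p in UH n, ((p.2 ^ (n + 1))⁻¹ : ℝ) • gdot u φ p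
      = (∑ k : Fin n, ∫ p in UH n, wv (dir k) u p * pd (dir k) φ p) +
        ∫ p in UH n, wv er u p * pd er φ p := by
    rw [← integral_finsetSum _ fun k _ => hi (dir k), ← integral_add
      (integrable_finsetSum _ fun k _ => hi (dir k)) (hi er)]
    refine setIntegral_congr_fun isOpen_UH.measurableSet fun p hp => ?_
    have hp' : (0 : ℝ) < p.2 := hp
    simp only [gdot, wv, Complex.real_smul]
    rw [mul_add, mul_add, Finset.mul_sum, Finset.mul_sum]
    congr 1
    · refine Finset.sum_congr rfl fun k _ => ?_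
      push_cast
      ring
    · push_cast
      ring
  have hR : ∫ p in UH n, lam * (((p.2 ^ (n + 1))⁻¹ : ℝ) • (u p * φ p))
      = -((∑ k : Fin n, ∫ p in UH n, pd (dir k) (wv (dir k) u) p * φ p) +
        ∫ p in UH n, pd er (wv er u) p * φ p) := by
    rw [← integral_finsetSum _ fun k _ => hj (dir k), ← integral_add
      (integrable_finsetSum _ fun k _ => hj (dir k)) (hj er), ← integral_neg]
    refine setIntegral_congr_fun isOpen_UH.measurableSet fun p hp => ?_
    have hp' : (0 : ℝ) < p.2 := hp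
    have hE := heig p hp
    simp only [pd_wv _ hu hp, Complex.real_smul, dir_snd, er_snd]
    have hE' : lam * u p = -(((p.2 : ℂ)) ^ 2 * ((∑ k : Fin n, pd (dir k) (pd (dir k) u) p) +
        pd er (pd er u) p) - ((n : ℂ) - 1) * (p.2 : ℂ) * pd er u p) := by
      unfold lap at hE
      linear_combination hE
    have h7 : lam * (((((p.2 ^ (n + 1))⁻¹ : ℝ)) : ℂ) * (u p * φ p)) =
        ((((p.2 ^ (n + 1))⁻¹ : ℝ)) : ℂ) * (lam * u p) * φ p := by
      ring
    rw [h7, hE']
    have h8 : ∑ k : Fin n, (((p.2 ^ 2 * (p.2 ^ (n + 1))⁻¹ : ℝ) : ℂ) * pd (dir k) (pd (dir k) u) p -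
        (((n : ℝ) - 1) * 0 * (p.2 * (p.2 ^ (n + 1))⁻¹) : ℝ) * pd (dir k) u p) * φ p =
        ((p.2 ^ 2 * (p.2 ^ (n + 1))⁻¹ : ℝ) : ℂ) *
          (∑ k : Fin n, pd (dir k) (pd (dir k) u) p) * φ p := by
      rw [Finset.mul_sum, Finset.sum_mul]
      refine Finset.sum_congr rfl fun k _ => ?_
      push_cast
      ring
    rw [h8]
    push_cast
    ring
  rw [hL, hR, neg_add, ← Finset.sum_neg_distrib, hk er]
  congr 1
  exact Finset.sum_congr rfl fun k _ => hk (dir k)

/-! ## invariance of the weak eigenvalue equation -/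

theorem ae_hyp : ∀ᵐ p ∂(hyp n), p ∈ (UH n) := by
  unfold hyp
  exact (withDensity_absolutelyContinuous _ _) (ae_restrict_mem isOpen_UH.measurableSet)

theorem integral_act (hDp : Dp n) {g : LV n ≃ₗ[ℝ] LV n} (hg : g ∈ LG n) {F : Pt n → ℂ} (hF : AEStronglyMeasurable F (hyp n)) :
    ∫ p, F (act g p) ∂(hyp n) = ∫ p, F p ∂(hyp n) := by
  have hmp := hDp.mp g hg
  have hF' : AEStronglyMeasurable F (Measure.map (act g) (hyp n)) := by rw [hmp.map_eq]; exact hF
  have h := integral_map hmp.measurable.aemeasurable hF'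
  rw [hmp.map_eq] at h
  exact h.symm

theorem continuousOn_gdot {u v : Pt n → ℂ} (hu : ContDiffOn ℝ 1 u (UH n)) (hv : ContDiffOn ℝ 1 v (UH n)) :
    ContinuousOn (gdot u v) (UH n) := by
  have h : ContinuousOn (fun p : Pt n => (p.2 : ℂ) ^ 2) (UH n) := by fun_prop
  exact h.mul ((continuousOn_finsetSum _ fun k _ =>
    (continuousOn_pd (dir k) hu).mul (continuousOn_pd (dir k) hv)).add
      ((continuousOn_pd er hu).mul (continuousOn_pd er hv)))

theorem pd_congr (e : Pt n) {f h : Pt n → ℂ} {p : Pt n} (hfh : f =ᶠ[𝓝 p] h) : pd e f p = pd e h p := by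
  unfold pd; rw [hfh.fderiv_eq]

theorem gdot_congr {f h f' h' : Pt n → ℂ} {p : Pt n} (hf : f =ᶠ[𝓝 p] f') (hh : h =ᶠ[𝓝 p] h') :
    gdot f h p = gdot f' h' p := by
  unfold gdot
  rw [pd_congr er hf, pd_congr er hh]
  congr 2
  exact Finset.sum_congr rfl fun k _ => by rw [pd_congr _ hf, pd_congr _ hh]

theorem gdot_zero_off {u φ : Pt n → ℂ} {p : Pt n} (hp : p ∉ tsupport φ) : gdot u φ p = 0 := by
  unfold gdot
  rw [Finset.sum_eq_zero fun k _ => by rw [pd_zero_off _ hp, mul_zero], pd_zero_off er hp,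
    mul_zero, add_zero, mul_zero]

theorem aesm_of {f : Pt n → ℂ} (hf : ContinuousOn f (UH n)) : AEStronglyMeasurable f (hyp n) := by
  have h : AEStronglyMeasurable f (volume.restrict (UH n)) :=
    hf.aestronglyMeasurable isOpen_UH.measurableSet
  unfold hyp
  exact h.mono_ac (withDensity_absolutelyContinuous _ _)

open Classical in
theorem weakEig_comp_aux (hDp : Dp n) {g : LV n ≃ₗ[ℝ] LV n} (hg : g ∈ LG n) {u : Pt n → ℂ} (hu : ContDiffOn ℝ 1 u (UH n))
    {lam : ℂ} (h : WeakEig lam u) : WeakEig lam (fun p => u (act g p)) := by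
  intro φ hφ hc hs
  set ψ : Pt n → ℂ := fun p => if p ∈ (UH n) then φ (act g⁻¹ p) else 0 with hψ
  set K : Set (Pt n) := act g '' tsupport φ with hK
  have hgi : g⁻¹ ∈ LG n := (LG n).inv_mem hg
  have hact : ContDiffOn ℝ 1 (act g⁻¹) (UH n) := hDp.cd1 hgi
  have hact' : ContDiffOn ℝ 1 (act g) (UH n) := hDp.cd1 hg
  have hKc : IsCompact K := hc.isCompact.image_of_continuousOn (hact'.continuousOn.mono hs)
  have hKU : K ⊆ (UH n) := by
    rintro _ ⟨p, hp, rfl⟩
    exact act_mem hg (hs hp)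
  have hψ0 : ∀ p, p ∉ K → ψ p = 0 := by
    intro p hp
    simp only [hψ]
    split_ifs with hpU
    · apply image_eq_zero_of_notMem_tsupport
      intro hmem
      exact hp ⟨_, hmem, act_act_inv hg hpU⟩
    · rfl
  have hψU : ContDiffOn ℝ 1 ψ (UH n) := by
    have : ContDiffOn ℝ 1 (fun p => φ (act g⁻¹ p)) (UH n) := hφ.comp_contDiffOn hact
    refine this.congr fun p hp => ?_
    simp only [hψ, hp, if_true]
  have hψC : ContDiff ℝ 1 ψ := contDiff_of_UH hKc.isClosed hKU hψU hψ0
  have hψc : HasCompactSupport ψ := HasCompactSupport.intro hKc hψ0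
  have hψs : tsupport ψ ⊆ (UH n) := by
    refine subset_trans (closure_minimal ?_ hKc.isClosed) hKU
    intro p hp
    by_contra hn
    exact hp (hψ0 p hn)
  have hkey := h ψ hψC hψc hψs
  have hback : ∀ p ∈ (UH n), ψ (act g p) = φ p := by
    intro p hp
    simp only [hψ, act_mem hg hp, if_true]
    rw [act_inv_act hg hp]
  have i1 : ∫ p, gdot (fun p => u (act g p)) φ p ∂(hyp n) = ∫ p, gdot u ψ p ∂(hyp n) := by
    rw [← integral_act hDp hg (aesm_of (continuousOn_gdot hu hψU))]
    refine integral_congr_ae ?_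
    filter_upwards [ae_hyp] with p hp
    rw [← hDp.gd g hg p hp _ _ (differentiableAt_of hu (act_mem hg hp))
      (differentiableAt_of hψU (act_mem hg hp))]
    refine gdot_congr (Filter.EventuallyEq.refl _ _) ?_
    filter_upwards [isOpen_UH.mem_nhds hp] with q hq
    exact (hback q hq).symm
  have i2 : ∫ p, u (act g p) * φ p ∂(hyp n) = ∫ p, u p * ψ p ∂(hyp n) := by
    rw [← integral_act hDp hg (F := fun p => u p * ψ p)
      (aesm_of (hu.continuousOn.mul hψU.continuousOn))]
    refine integral_congr_ae ?_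
    filter_upwards [ae_hyp] with p hp
    rw [hback p hp]
  rw [i1, i2]
  exact hkey

end Pool.Agent.Helper13.Lor
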